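import Pool.Agent.H83JL.CMS

/-!
# Polynomiality in `p₀` of the normalised Jack-Laurent symmetric functions

`K` is a field of characteristic zero and `k ∈ K` is not a rational number (for instance
`K = ℂ(k)` with `k` the variable, or `K = ℂ` and `k` a complex number which is not rational).
-/

namespace Pool.Agent.Results.MP_9e047e_al.PolyInP0

open Finset Polynomial

/-- The ring `K[x_0^{±1}, …, x_{N-1}^{±1}]` of Laurent polynomials in `N` variables, as the group
algebra of `ℤ^N`; the coefficient of `x^η` in `P` is `P.coeff η`. -/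
abbrev Lau (K : Type*) [Field K] (N : ℕ) : Type _ := AddMonoidAlgebra K (Fin N → ℤ)

section finitely_many_variables

variable {K : Type*} [Field K] {N : ℕ}

/-- The Laurent monomial `x^η`. -/
noncomputable def mono (K : Type*) [Field K] {N : ℕ} (η : Fin N → ℤ) : Lau K N :=
  AddMonoidAlgebra.single η 1

/-- The power `x_i^a`. -/
noncomputable def xpow (K : Type*) [Field K] {N : ℕ} (i : Fin N) (a : ℤ) : Lau K N :=
  mono K (Pi.single i a)

/-- The operator `x_i ∂/∂x_i`: it multiplies the monomial `x^η` by `η_i`. -/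
noncomputable def theta (i : Fin N) (P : Lau K N) : Lau K N :=
  ∑ η ∈ P.coeff.support, (((η i : ℤ) : K) * P.coeff η) • mono K η

/-- `P` is a symmetric Laurent polynomial. -/
def IsSymmetric (P : Lau K N) : Prop :=
  ∀ (σ : Equiv.Perm (Fin N)) (η : Fin N → ℤ), P.coeff (fun i => η (σ i)) = P.coeff η

/-- The dominance order `ρ ≤ ν` on integer sequences of length `N`: equal total sums and
`ρ_1 + … + ρ_m ≤ ν_1 + … + ν_m` for all `m`. -/
def DomLE (ρ ν : Fin N → ℤ) : Prop :=
  ∑ i, ρ i = ∑ i, ν i ∧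
    ∀ m : ℕ, ∑ i ∈ univ.filter (fun i : Fin N => i.val < m), ρ i ≤
      ∑ i ∈ univ.filter (fun i : Fin N => i.val < m), ν i

/-- `P` is an eigenfunction of the trigonometric Calogero-Moser-Sutherland operator
`∑ (x_i ∂_i)² - k ∑_{i<j} (x_i + x_j)/(x_i - x_j) (x_i ∂_i - x_j ∂_j)`; here
`h i j` is the quotient `(x_i + x_j)/(x_i - x_j) (x_i ∂_i - x_j ∂_j) P`. -/
def IsCMSEigenfunction (k : K) (P : Lau K N) : Prop :=
  ∃ (E : K) (h : Fin N → Fin N → Lau K N),
    (∀ i j, (xpow K i 1 - xpow K j 1) * h i j =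
      (xpow K i 1 + xpow K j 1) * (theta i P - theta j P)) ∧
    ∑ i, theta i (theta i P) - k • ∑ i, ∑ j ∈ Ioi i, h i j = E • P

/-- `P` is the (monic) Jack polynomial `P_ν^{(k)}`, `ν` a partition with at most `N` parts: a
symmetric eigenfunction of the CMS operator of the form `m_ν + ∑_{ρ<ν} c_{ρν} m_ρ`. -/
def IsJackPolynomial (k : K) (ν : Fin N → ℤ) (P : Lau K N) : Prop :=
  IsSymmetric P ∧ P.coeff ν = 1 ∧ (∀ ρ, Antitone ρ → P.coeff ρ ≠ 0 → DomLE ρ ν) ∧
    IsCMSEigenfunction k P

/-- `P` is `P_χ^{(k)} = (x_1 ⋯ x_N)^{-a} P_{χ+a}^{(k)}`, for a non-increasing integer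
sequence `χ` (for all `a` such that `χ + a` is a partition). -/
def IsJackLaurentPolynomial (k : K) (χ : Fin N → ℤ) (P : Lau K N) : Prop :=
  ∀ a : ℕ, (∀ i, 0 ≤ χ i + a) →
    IsJackPolynomial k (fun i => χ i + a) (mono K (fun _ => (a : ℤ)) * P)

end finitely_many_variables

section infinitely_many_variables

variable {K : Type*} [Field K]

/-- The algebra `Λ^± = K(p_0)[p_a : a ∈ ℤ ∖ {0}]`; the parameter `p_0` is the variable of the
field `RatFunc K` of rational functions. -/
abbrev LaurentSymm (K : Type*) [Field K] : Type _ := MvPolynomial {a : ℤ // a ≠ 0} (RatFunc K)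

/-- The specialisation `p_0 = N` followed by `φ_N : p_a ↦ x_1^a + ⋯ + x_N^a`. -/
noncomputable def spec (N : ℕ) (P : LaurentSymm K) : Lau K N :=
  ∑ m ∈ P.support, (RatFunc.eval (RingHom.id K) (N : K) (P.coeff m)) •
    m.prod (fun a e => (∑ i, xpow K i a.1) ^ e)

/-- The weight `χ = (λ_1, …, λ_{l(λ)}, 0, …, 0, -μ_{l(μ)}, …, -μ_1)` of length `N`. -/
def weight (N : ℕ) (lam mu : YoungDiagram) : Fin N → ℤ :=
  fun i => (lam.rowLen i : ℤ) - (mu.rowLen (N - 1 - i) : ℤ)

/-- `P` is the Jack-Laurent symmetric function `P_{λ,μ}^{(k,p_0)}`: for all large `N`, setting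
`p_0 = N` and applying `φ_N` gives `P_χ^{(k)}(x_1, …, x_N)`. -/
def IsJackLaurent (k : K) (lam mu : YoungDiagram) (P : LaurentSymm K) : Prop :=
  ∃ N₀ : ℕ, ∀ N ≥ N₀, IsJackLaurentPolynomial k (weight N lam mu) (spec N P)

/-- The normalising factor `A(λ,μ)` as a polynomial in `p_0` (`= X`), rows and columns being
counted from zero. -/
noncomputable def factorA (k : K) (lam mu : YoungDiagram) : K[X] :=
  ∏ i ∈ range (lam.colLen 0), ∏ j ∈ range (mu.rowLen 0),
    ((C (j : K) + C k * (C (i : K) - X)) *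
      (C ((lam.rowLen i : K) + j) + C k * (C ((i : K) + mu.colLen j) - X)))

/-- The half of the factors of `A(λ,μ)` which depend on the shapes,
`B(λ,μ) = ∏ (λ_i + j - 1 + k (i - 1 + μ'_j - p_0))`. -/
noncomputable def factorB (k : K) (lam mu : YoungDiagram) : K[X] :=
  ∏ i ∈ range (lam.colLen 0), ∏ j ∈ range (mu.rowLen 0),
    (C ((lam.rowLen i : K) + j) + C k * (C ((i : K) + mu.colLen j) - X))

/-- `c · P` is polynomial in `p_0`: all its coefficients in the basis of monomials in the `p_a`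
are polynomials in `p_0`. -/
def IsPolynomialInP0 (c : K[X]) (P : LaurentSymm K) : Prop :=
  ∀ m, ∃ q : K[X], algebraMap K[X] (RatFunc K) c * P.coeff m = algebraMap K[X] (RatFunc K) q

end infinitely_many_variables

/-! ### proofs -/

section proofs

variable {K : Type*} [Field K] {N : ℕ}

open H83JL (Sym W csum phi phi' Eig VV shf xp euler)

lemma theta_eq (i : Fin N) (P : Lau K N) : theta i P = euler i P := by
  apply AddMonoidAlgebra.ext
  ext η
  classical
  rw [H83JL.euler_coeff, theta, AddMonoidAlgebra.coeff_sum, Finset.sum_apply']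
  simp only [mono, AddMonoidAlgebra.coeff_smul, Finsupp.smul_apply, AddMonoidAlgebra.coeff_single,
    Finsupp.single_apply, smul_eq_mul, mul_ite, mul_one, mul_zero]
  rw [Finset.sum_ite_eq']
  split_ifs with h
  · rfl
  · rw [Finsupp.notMem_support_iff.1 h, mul_zero]

lemma sym_iff (P : Lau K N) : IsSymmetric P ↔ Sym P := by
  constructor
  · intro h σ
    apply AddMonoidAlgebra.ext
    ext η
    rw [H83JL.perm_coeff, h]
  · intro h σ η
    rw [← H83JL.perm_coeff, h]

lemma cms_iff (k : K) (P : Lau K N) : IsCMSEigenfunction k P ↔ ∃ E, H83JL.CMSrel k E P := by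
  unfold IsCMSEigenfunction H83JL.CMSrel
  simp only [theta_eq]
  rfl

lemma domLE_iff {ρ χ : Fin N → ℤ} (hρ : Antitone ρ) : DomLE ρ χ ↔ ρ ∈ W χ := by
  constructor
  · rintro ⟨h1, h2⟩
    exact ⟨h1, fun S => (H83JL.top_sum hρ S).trans (h2 _)⟩
  · rintro ⟨h1, h2⟩
    refine ⟨h1, fun m => ?_⟩
    rcases le_total m N with hm | hm
    · exact H83JL.csum_le_of_mem ⟨h1, h2⟩ hm
    · have : (univ.filter (fun i : Fin N => i.val < m)) = univ := by
        ext i; simp; omega
      rw [this]; exact h1.le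

lemma domLE_shift (ρ χ : Fin N → ℤ) (a : ℤ) :
    DomLE (fun i => ρ i + a) (fun i => χ i + a) ↔ DomLE ρ χ := by
  unfold DomLE
  simp only [Finset.sum_add_distrib, add_left_inj, add_le_add_iff_right]

/-- normalised elements of the eigenspace are Jack-Laurent polynomials -/
lemma jack_of_eig {k : K} {χ : Fin N → ℤ} {f : Lau K N} (hf : f ∈ Eig k χ)
    (h1 : f.coeff χ = 1) : IsJackLaurentPolynomial k χ f := by
  intro a _
  have hs : ∀ η, f.coeff η ≠ 0 → η ∈ W χ := by
    intro η hη
    by_contra hcon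
    exact hη (AddMonoidAlgebra.mem_supported'.1 hf.1.1 η hcon)
  have e : mono K (fun _ => (a : ℤ)) = shf K N a := rfl
  rw [e]
  refine ⟨?_, ?_, ?_, ?_⟩
  · rw [sym_iff]; exact H83JL.Sym_shf _ hf.1.2
  · rw [H83JL.shf_coeff]
    simpa using h1
  · intro ρ hρ hne
    rw [H83JL.shf_coeff] at hne
    have hρ' : Antitone (fun i => ρ i - (a : ℤ)) := fun x y hxy => by
      have := hρ hxy
      simp only; omega
    have := (domLE_iff hρ').2 (hs _ hne)
    rw [← domLE_shift _ _ (a : ℤ)] at this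
    simpa using this
  · rw [cms_iff]
    refine ⟨_, (H83JL.CMSrel_shf k _ a (∑ i, χ i) (fun η hη => (hs η hη).1)).2
      ((H83JL.CMSrel_iff k _ hf.1.2).2 hf.2)⟩

/-- conversely -/
lemma eig_of_jack {k : K} {χ : Fin N → ℤ} (hχ : Antitone χ) {f : Lau K N}
    (hf : IsJackLaurentPolynomial k χ f) : f ∈ Eig k χ ∧ f.coeff χ = 1 := by
  obtain ⟨a, ha⟩ : ∃ a : ℕ, ∀ i, 0 ≤ χ i + a := by
    refine ⟨∑ i, (χ i).natAbs, fun i => ?_⟩
    have h : (χ i).natAbs ≤ ∑ i, (χ i).natAbs :=
      Finset.single_le_sum (f := fun i => (χ i).natAbs) (fun _ _ => Nat.zero_le _) (mem_univ i)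
    omega
  have e : mono K (fun _ => (a : ℤ)) = shf K N a := rfl
  obtain ⟨s1, s2, s3, s4⟩ := hf a ha
  rw [e] at s1 s2 s3 s4
  rw [sym_iff] at s1
  have hsym : Sym f := by
    intro σ
    have := s1 σ
    rw [map_mul] at this
    have h2 : H83JL.perm σ (shf K N a) = shf K N a := by
      rw [H83JL.shf, H83JL.perm_single]
    rw [h2] at this
    exact mul_left_cancel₀ (H83JL.shf_ne _) this
  have h1 : f.coeff χ = 1 := by
    rw [H83JL.shf_coeff] at s2
    simpa using s2
  have hsupp : ∀ η, f.coeff η ≠ 0 → η ∈ W χ := by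
    intro η hη
    obtain ⟨σ, hσ⟩ := H83JL.exists_sort η
    have h2 : f.coeff (fun i => η (σ i)) ≠ 0 := by
      rw [← H83JL.perm_coeff, hsym]; exact hη
    have h3 := s3 (fun i => η (σ i) + a) (fun x y hxy => by
      have := hσ hxy
      simp only at this ⊢; omega) (by
      rw [H83JL.shf_coeff]; simpa using h2)
    rw [domLE_shift, domLE_iff hσ] at h3
    have h4 := (H83JL.clo_W χ).perm σ⁻¹ _ h3
    simpa using h4
  have hVV : f ∈ VV K χ := by
    refine ⟨?_, hsym⟩
    rw [AddMonoidAlgebra.mem_supported']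
    intro m hm
    by_contra hcon
    exact hm (hsupp m hcon)
  refine ⟨⟨hVV, ?_⟩, h1⟩
  rw [cms_iff] at s4
  obtain ⟨E, hE⟩ := s4
  have hE' : H83JL.CMSrel k (E - (2 * (a : ℤ) * (∑ i, χ i : ℤ) + N * ((a : ℤ) : K) ^ 2)) f := by
    rw [← H83JL.CMSrel_shf k _ a (∑ i, χ i) (fun η hη => (hsupp η hη).1)]
    convert hE using 1
    ring
  rw [H83JL.CMSrel_iff k _ hsym] at hE'
  have h5 := H83JL.diag_II hχ k hVV 2
  rw [hE', AddMonoidAlgebra.coeff_smul, Finsupp.smul_apply, h1, smul_eq_mul, mul_one,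
    mul_one] at h5
  rw [hE', h5]

lemma jack_unique [CharZero K] {k : K} (hk : ∀ q : ℚ, (q : K) ≠ k) {χ : Fin N → ℤ}
    (hχ : Antitone χ) {f g : Lau K N}
    (hf : IsJackLaurentPolynomial k χ f) (hg : IsJackLaurentPolynomial k χ g) : f = g := by
  obtain ⟨h1, h2⟩ := eig_of_jack hχ hf
  obtain ⟨h3, h4⟩ := eig_of_jack hχ hg
  rw [← sub_eq_zero]
  apply H83JL.eig_zero hk hχ (sub_mem h1 h3)
  rw [AddMonoidAlgebra.coeff_sub, Finsupp.sub_apply, h2, h4, sub_self]

/-! ### specialisation of rational functions -/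

lemma eval_of_mul {x : RatFunc K} {d p : K[X]} (h : algebraMap K[X] (RatFunc K) d * x =
    algebraMap K[X] (RatFunc K) p) {c : K} (hd : d.eval c ≠ 0) :
    RatFunc.eval (RingHom.id K) c x = (d.eval c)⁻¹ * p.eval c := by
  have hd0 : d ≠ 0 := by rintro rfl; simp at hd
  have hd1 : algebraMap K[X] (RatFunc K) d ≠ 0 := RatFunc.algebraMap_ne_zero hd0
  have hx : x = algebraMap K[X] (RatFunc K) p / algebraMap K[X] (RatFunc K) d := by
    rw [eq_div_iff hd1, mul_comm]; exact h
  have hdvd : x.denom ∣ d := by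
    rw [RatFunc.denom_dvd hd0]; exact ⟨p, hx⟩
  have hden : x.denom.eval c ≠ 0 := by
    intro h0
    obtain ⟨r, hr⟩ := hdvd
    apply hd
    rw [hr, eval_mul, h0, zero_mul]
  have h2 : x.num * d = p * x.denom := (RatFunc.num_mul_eq_mul_denom_iff hd0).2 hx
  have h3 := congrArg (Polynomial.eval c) h2
  rw [eval_mul, eval_mul] at h3
  rw [RatFunc.eval, ← Polynomial.eval, ← Polynomial.eval, div_eq_iff hden]
  field_simp
  linear_combination h3

/-- `spec` in terms of a common denominator -/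
lemma spec_eq {P : LaurentSymm K} {d : K[X]} {F : MvPolynomial {a : ℤ // a ≠ 0} K[X]}
    (h : ∀ m, algebraMap K[X] (RatFunc K) d * P.coeff m = algebraMap K[X] (RatFunc K) (F.coeff m))
    (N : ℕ) (hd : d.eval (N : K) ≠ 0) :
    d.eval (N : K) • spec N P = phi' K N (MvPolynomial.map (evalRingHom (N : K)) F) := by
  classical
  have hd0 : d ≠ 0 := by rintro rfl; simp at hd
  have hd1 : algebraMap K[X] (RatFunc K) d ≠ 0 := RatFunc.algebraMap_ne_zero hd0
  have hsupp : (MvPolynomial.map (evalRingHom (N : K)) F).support ⊆ P.support := by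
    intro m hm
    rw [MvPolynomial.mem_support_iff, MvPolynomial.coeff_map] at hm
    rw [MvPolynomial.mem_support_iff]
    intro h0
    apply hm
    have := h m
    rw [h0, mul_zero] at this
    have h2 : F.coeff m = 0 := by
      by_contra hne
      exact RatFunc.algebraMap_ne_zero hne this.symm
    rw [h2, map_zero]
  rw [H83JL.phi'_eq, spec, Finset.smul_sum]
  rw [Finset.sum_subset hsupp]
  · refine Finset.sum_congr rfl fun m _ => ?_
    rw [smul_smul, eval_of_mul (h m) hd, mul_inv_cancel_left₀ hd, MvPolynomial.coeff_map,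
      coe_evalRingHom]
    rfl
  · intro m _ hm
    rw [MvPolynomial.notMem_support_iff.1 hm, zero_smul]

lemma exists_denom (P : LaurentSymm K) : ∃ d : K[X], d ≠ 0 ∧
    ∃ F : MvPolynomial {a : ℤ // a ≠ 0} K[X],
    ∀ m, algebraMap K[X] (RatFunc K) d * P.coeff m = algebraMap K[X] (RatFunc K) (F.coeff m) := by
  classical
  obtain ⟨b, hb⟩ := IsLocalization.exist_integer_multiples_of_finset (nonZeroDivisors K[X])
    (P.support.image fun m => P.coeff m)
  have hb' : ∀ m, ∃ q : K[X], algebraMap K[X] (RatFunc K) b * P.coeff m =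
      algebraMap K[X] (RatFunc K) q ∧ (P.coeff m = 0 → q = 0) := by
    intro m
    by_cases hm : P.coeff m = 0
    · exact ⟨0, by rw [hm]; simp, fun _ => rfl⟩
    · obtain ⟨q, hq⟩ := hb (P.coeff m)
        (Finset.mem_image_of_mem _ (MvPolynomial.mem_support_iff.2 hm))
      exact ⟨q, (Algebra.smul_def (b : K[X]) (P.coeff m)).symm.trans hq.symm,
        fun h => absurd h hm⟩
  choose q hq hq0 using hb'
  refine ⟨b, nonZeroDivisors.coe_ne_zero b, ∑ m ∈ P.support, MvPolynomial.monomial m (q m),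
    fun m => ?_⟩
  rw [MvPolynomial.coeff_sum]
  simp only [MvPolynomial.coeff_monomial]
  rw [Finset.sum_ite_eq', hq]
  split_ifs with h
  · rfl
  · rw [hq0 m (MvPolynomial.notMem_support_iff.1 h)]

/-- a nonzero polynomial has nonzero values at all large `N` -/
lemma eventually_ne [CharZero K] {d : K[X]} (hd : d ≠ 0) :
    ∃ N₀ : ℕ, ∀ N ≥ N₀, d.eval (N : K) ≠ 0 := by
  classical
  have hfin : Set.Finite {n : ℕ | d.eval (n : K) = 0} := by
    refine Set.Finite.of_injOn (f := fun n : ℕ => (n : K)) (t := (d.roots.toFinset : Set K)) ?_ ?_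
      (Finset.finite_toSet _)
    · intro n hn
      simp only [Finset.mem_coe, Multiset.mem_toFinset]
      exact (mem_roots hd).2 hn
    · intro a _ b _ hab
      exact Nat.cast_injective hab
  obtain ⟨M, hM⟩ := hfin.bddAbove
  refine ⟨M + 1, fun N hN h0 => ?_⟩
  have := hM h0
  omega

/-- elements of `Λ^±` are determined by their specialisations at all large `N` -/
lemma spec_injective [CharZero K] {P P' : LaurentSymm K}
    (h : ∃ N₀ : ℕ, ∀ N ≥ N₀, spec N P = spec N P') : P = P' := by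
  obtain ⟨N₀, h⟩ := h
  obtain ⟨d, hd, F, hF⟩ := exists_denom P
  obtain ⟨d', hd', F', hF'⟩ := exists_denom P'
  have hd1 : algebraMap K[X] (RatFunc K) d ≠ 0 := RatFunc.algebraMap_ne_zero hd
  have hd1' : algebraMap K[X] (RatFunc K) d' ≠ 0 := RatFunc.algebraMap_ne_zero hd'
  by_contra hne
  set G : MvPolynomial {a : ℤ // a ≠ 0} K[X] := MvPolynomial.C d' * F - MvPolynomial.C d * F'
    with hG
  have hGne : G ≠ 0 := by
    intro h0
    apply hne
    ext m
    have h1 : G.coeff m = 0 := by rw [h0]; simp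
    rw [hG, MvPolynomial.coeff_sub, MvPolynomial.coeff_C_mul, MvPolynomial.coeff_C_mul] at h1
    have h2 := congrArg (algebraMap K[X] (RatFunc K)) h1
    rw [map_sub, map_mul, map_mul, ← hF, ← hF', map_zero] at h2
    have h3 : algebraMap K[X] (RatFunc K) d' * algebraMap K[X] (RatFunc K) d *
        (P.coeff m - P'.coeff m) = 0 := by
      linear_combination h2
    rcases mul_eq_zero.1 h3 with h4 | h4
    · exact absurd h4 (mul_ne_zero hd1' hd1)
    · exact sub_eq_zero.1 h4
  obtain ⟨m, hm⟩ := MvPolynomial.ne_zero_iff.1 hGne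
  obtain ⟨N1, hN1⟩ := eventually_ne hm
  obtain ⟨N2, hN2⟩ := eventually_ne hd
  obtain ⟨N3, hN3⟩ := eventually_ne hd'
  set N := max (max N₀ N1) (max (max N2 N3) G.totalDegree) with hN
  have a0 : N₀ ≤ N := by omega
  have a1 : N1 ≤ N := by omega
  have a2 : N2 ≤ N := by omega
  have a3 : N3 ≤ N := by omega
  have a4 : G.totalDegree ≤ N := by omega
  have h1 := spec_eq hF N (hN2 N a2)
  have h2 := spec_eq hF' N (hN3 N a3)
  have h3 : phi' K N (MvPolynomial.map (evalRingHom (N : K)) G) = 0 := by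
    rw [hG, map_sub, map_mul, map_mul, MvPolynomial.map_C, MvPolynomial.map_C, map_sub, map_mul,
      map_mul, ← h1, ← h2, h N a0]
    have hC : ∀ c : K, phi' K N (MvPolynomial.C c) = algebraMap K (Lau K N) c := by
      intro c; rw [H83JL.phi', MvPolynomial.aeval_C]
    rw [hC, hC, ← Algebra.smul_def, ← Algebra.smul_def, smul_smul, smul_smul, coe_evalRingHom]
    rw [mul_comm, sub_self]
  refine H83JL.phi'_ne_zero ?_ ?_ h3
  · intro h0
    have : (MvPolynomial.map (evalRingHom (N : K)) G).coeff m = 0 := by rw [h0]; simp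
    rw [MvPolynomial.coeff_map] at this
    exact hN1 N a1 this
  · refine le_trans ?_ a4
    exact Finset.sup_mono (MvPolynomial.support_map_subset _ _)

/-- from `K[p_a : a ∈ ℤ]` to `K[p_0][p_a : a ≠ 0]` -/
noncomputable def conv (K : Type*) [Field K] :
    MvPolynomial ℤ K →ₐ[K] MvPolynomial {a : ℤ // a ≠ 0} K[X] :=
  MvPolynomial.aeval (fun a => if h : a = 0 then MvPolynomial.C X else MvPolynomial.X ⟨a, h⟩)

lemma phi'_conv (N : ℕ) (J : MvPolynomial ℤ K) :
    phi' K N (MvPolynomial.map (evalRingHom (N : K)) (conv K J)) = phi K N J := by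
  induction J using MvPolynomial.induction_on with
  | C a =>
    rw [conv, MvPolynomial.aeval_C]
    have : algebraMap K (MvPolynomial {a : ℤ // a ≠ 0} K[X]) a = MvPolynomial.C (C a) := rfl
    rw [this, MvPolynomial.map_C, H83JL.phi', MvPolynomial.aeval_C, H83JL.phi,
      MvPolynomial.aeval_C]
    simp
  | add f g hf hg => simp only [map_add, hf, hg]
  | mul_X f a hf =>
    simp only [map_mul, hf]
    congr 1
    rw [conv, MvPolynomial.aeval_X]
    split_ifs with h
    · subst h
      rw [MvPolynomial.map_C, H83JL.phi', MvPolynomial.aeval_C, H83JL.phi_X, H83JL.psum_zero]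
      simp
    · rw [MvPolynomial.map_X, H83JL.phi', MvPolynomial.aeval_X, H83JL.phi_X]

/-! ### Young diagrams -/

lemma weight_eq (N : ℕ) (lam mu : YoungDiagram) :
    weight N lam mu = H83JL.chi N lam.rowLen mu.rowLen := rfl

lemma rowLen_anti (lam : YoungDiagram) : Antitone lam.rowLen := fun _ _ h => lam.rowLen_anti _ _ h

lemma rowLen_zero (lam : YoungDiagram) (i : ℕ) (h : lam.colLen 0 ≤ i) : lam.rowLen i = 0 := by
  by_contra hne
  have h1 : (i, 0) ∈ lam := YoungDiagram.mem_iff_lt_rowLen.2 (Nat.pos_of_ne_zero hne)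
  have h2 := YoungDiagram.mem_iff_lt_colLen.1 h1
  omega

lemma conj_eq (mu : YoungDiagram) {L : ℕ} (hL : ∀ i, L ≤ i → mu.rowLen i = 0) (u : ℕ) :
    H83JL.conj L mu.rowLen u = mu.colLen u := by
  apply le_antisymm
  · by_contra h
    push Not at h
    have h1 := (H83JL.lt_conj (rowLen_anti mu) hL (mu.colLen u) u).1 h
    have h2 := YoungDiagram.mem_iff_lt_colLen.1 (YoungDiagram.mem_iff_lt_rowLen.2 h1)
    omega
  · by_contra h
    push Not at h
    have h1 := YoungDiagram.mem_iff_lt_rowLen.1 (YoungDiagram.mem_iff_lt_colLen.2 h)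
    have h2 := (H83JL.lt_conj (rowLen_anti mu) hL (H83JL.conj L mu.rowLen u) u).2 h1
    omega

/-- a bound on the number of rows and the size -/
lemma exists_bound (lam : YoungDiagram) : ∃ L : ℕ, (∀ i, L ≤ i → lam.rowLen i = 0) ∧
    ∑ i ∈ range L, lam.rowLen i ≤ L := by
  set n := ∑ i ∈ range (lam.colLen 0), lam.rowLen i with hn
  refine ⟨max n (lam.colLen 0), fun i hi => rowLen_zero lam i (by omega), ?_⟩
  rw [H83JL.sum_ext_range (fun i hi => rowLen_zero lam i hi) (le_max_right _ _)]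
  exact le_max_left _ _

lemma factorB_ne {k : K} (hk : k ≠ 0) (lam mu : YoungDiagram) : factorB k lam mu ≠ 0 := by
  rw [factorB, Finset.prod_ne_zero_iff]
  intro i _
  rw [Finset.prod_ne_zero_iff]
  intro j _ h0
  have := congrArg (fun p => Polynomial.coeff p 1) h0
  simp [mul_sub, Polynomial.coeff_C] at this
  exact hk this

end proofs

/-- **Theorem.** Let `K` be a field of characteristic zero and `k ∈ K` not a rational number.
For all partitions `λ`, `μ` the Jack-Laurent symmetric function `P_{λ,μ}^{(k,p_0)}` exists and is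
unique, and both `A(λ,μ) P_{λ,μ}` and already `B(λ,μ) P_{λ,μ}` are polynomial in `p_0`. -/
theorem result (K : Type*) [Field K] [CharZero K] (k : K) (hk : ∀ q : ℚ, (q : K) ≠ k)
    (lam mu : YoungDiagram) :
    ∃ P : LaurentSymm K, IsJackLaurent k lam mu P ∧
      (∀ P' : LaurentSymm K, IsJackLaurent k lam mu P' → P' = P) ∧
      IsPolynomialInP0 (factorA k lam mu) P ∧ IsPolynomialInP0 (factorB k lam mu) P := by
  have hk0 : k ≠ 0 := fun h0 => hk 0 (by simp [h0])
  obtain ⟨L, hL1, hL2⟩ := exists_bound lam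
  obtain ⟨L', hL1', hL2'⟩ := exists_bound mu
  obtain ⟨J, N0, hJ⟩ := H83JL.BB_mem hk (rowLen_anti lam) (rowLen_anti mu) hL1 hL1' hL2 hL2'
  have hB : H83JL.BB k L L' lam.rowLen mu.rowLen = factorB k lam mu := by
    rw [H83JL.BB, factorB, conj_eq lam hL1]
    refine Finset.prod_congr rfl fun i _ => Finset.prod_congr rfl fun u _ => ?_
    rw [H83JL.ff, conj_eq mu hL1']
    simp
  rw [hB] at hJ
  set B := factorB k lam mu with hBdef
  have hBne : B ≠ 0 := factorB_ne hk0 lam mu
  have hB1 : algebraMap K[X] (RatFunc K) B ≠ 0 := RatFunc.algebraMap_ne_zero hBne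
  set F := conv K J with hF
  set P : LaurentSymm K := MvPolynomial.C (algebraMap K[X] (RatFunc K) B)⁻¹ *
    MvPolynomial.map (algebraMap K[X] (RatFunc K)) F with hP
  have hPF : ∀ m, algebraMap K[X] (RatFunc K) B * P.coeff m =
      algebraMap K[X] (RatFunc K) (F.coeff m) := by
    intro m
    rw [hP, MvPolynomial.coeff_C_mul, MvPolynomial.coeff_map, mul_inv_cancel_left₀ hB1]
  obtain ⟨N1, hN1⟩ := eventually_ne hBne
  have hjl : IsJackLaurent k lam mu P := by
    refine ⟨max N0 N1, fun N hN => ?_⟩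
    have hBN := hN1 N ((le_max_right _ _).trans hN)
    obtain ⟨h1, h2⟩ := hJ N ((le_max_left _ _).trans hN)
    have h3 := spec_eq hPF N hBN
    rw [hF, phi'_conv] at h3
    have h4 : spec N P = (B.eval (N : K))⁻¹ • H83JL.phi K N J := by
      rw [← h3, smul_smul, inv_mul_cancel₀ hBN, one_smul]
    rw [weight_eq]
    apply jack_of_eig
    · rw [h4]; exact Submodule.smul_mem _ _ h1
    · rw [h4, AddMonoidAlgebra.coeff_smul, Finsupp.smul_apply, h2, smul_eq_mul,
        inv_mul_cancel₀ hBN]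
  refine ⟨P, hjl, ?_, ?_, ?_⟩
  · rintro P' ⟨N', hP'⟩
    obtain ⟨N'', hP''⟩ := hjl
    apply spec_injective
    refine ⟨max N' N'', fun N hN => ?_⟩
    have hχ : Antitone (weight N lam mu) :=
      H83JL.chi_antitone (rowLen_anti lam) (rowLen_anti mu)
    exact jack_unique hk hχ (hP' N ((le_max_left _ _).trans hN))
      (hP'' N ((le_max_right _ _).trans hN))
  · intro m
    have hdvd : B ∣ factorA k lam mu := by
      rw [hBdef, factorA, factorB]
      refine Finset.prod_dvd_prod_of_dvd _ _ fun i _ =>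
        Finset.prod_dvd_prod_of_dvd _ _ fun j _ => dvd_mul_left _ _
    obtain ⟨r, hr⟩ := hdvd
    refine ⟨r * F.coeff m, ?_⟩
    rw [hr, map_mul, map_mul, ← hPF]
    ring
  · intro m
    exact ⟨F.coeff m, hPF m⟩

end Pool.Agent.Results.MP_9e047e_al.PolyInP0
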